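import Pool.Agent.W829.UB.Defs

/-!
UB-LOC, UB-SHIFT, UB-SUB.
-/

set_option autoImplicit false

open MeasureTheory Set

namespace Pool.Agent.W346.UB

open Pool.Agent.W829.UB

lemma mem_succ (U : Finset (Finset Site)) (A : Set Site) (n : ℕ) (x : Site) :
    x ∈ infected U A (n + 1) ↔ x ∈ infected U A n ∨ ∃ X ∈ U, ∀ y ∈ X, x + y ∈ infected U A n :=
  Iff.rfl

theorem loc : S_LOC := by
  classical
  intro U
  set V : Finset Site := U.biUnion id with hV
  set ρ : ℕ := ∑ v ∈ V, (v.1.natAbs + v.2.natAbs) with hρ
  have hb : ∀ X ∈ U, ∀ y ∈ X, |y.1| ≤ ρ ∧ |y.2| ≤ ρ := by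
    intro X hX y hy
    have h1 : y ∈ V := Finset.mem_biUnion.2 ⟨X, hX, hy⟩
    have h2 : y.1.natAbs + y.2.natAbs ≤ ρ :=
      Finset.single_le_sum (f := fun v : Site => v.1.natAbs + v.2.natAbs)
        (fun _ _ => Nat.zero_le _) h1
    rw [Int.abs_eq_natAbs, Int.abs_eq_natAbs]
    constructor <;> omega
  refine ⟨ρ, fun n => ?_⟩
  induction n with
  | zero =>
    intro x A B h
    have := h x (by simp) (by simp)
    exact this
  | succ n ih =>
    intro x A B h
    rw [mem_succ, mem_succ]
    have hx : x ∈ infected U A n ↔ x ∈ infected U B n := by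
      refine ih x A B fun z h1 h2 => h z (h1.trans ?_) (h2.trans ?_) <;>
      · push_cast
        nlinarith [Int.natCast_nonneg ρ]
    have hy : ∀ X ∈ U, ∀ y ∈ X, (x + y ∈ infected U A n ↔ x + y ∈ infected U B n) := by
      intro X hX y hy
      obtain ⟨b1, b2⟩ := hb X hX y hy
      refine ih (x + y) A B fun z h1 h2 => h z ?_ ?_
      · have e1 : z.1 - x.1 = (z.1 - (x + y).1) + y.1 := by
          simp only [Prod.fst_add]
          ring
        rw [e1]
        refine (abs_add_le _ _).trans ?_
        push_cast
        linarith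
      · have e1 : z.2 - x.2 = (z.2 - (x + y).2) + y.2 := by
          simp only [Prod.snd_add]
          ring
        rw [e1]
        refine (abs_add_le _ _).trans ?_
        push_cast
        linarith
    constructor
    · rintro (h1 | ⟨X, hX, h1⟩)
      · exact Or.inl (hx.1 h1)
      · exact Or.inr ⟨X, hX, fun y hy' => (hy X hX y hy').1 (h1 y hy')⟩
    · rintro (h1 | ⟨X, hX, h1⟩)
      · exact Or.inl (hx.2 h1)
      · exact Or.inr ⟨X, hX, fun y hy' => (hy X hX y hy').2 (h1 y hy')⟩

theorem meas : S_MEAS := by
  intro U n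
  have h : ∀ x : Site, MeasurableSet {ω : Site → Bool | x ∈ infected U (init ω) n} := by
    induction n with
    | zero =>
      intro x
      have h1 : Measurable (fun ω : Site → Bool => ω x) := measurable_pi_apply x
      exact h1 (measurableSet_singleton true)
    | succ n ih =>
      intro x
      have e1 : {ω : Site → Bool | x ∈ infected U (init ω) (n + 1)} =
          {ω | x ∈ infected U (init ω) n} ∪
            ⋃ X ∈ U, ⋂ y ∈ X, {ω | x + y ∈ infected U (init ω) n} := by
        ext ω
        simp only [mem_ofPred_eq, mem_union, mem_iUnion, mem_iInter, exists_prop]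
        exact mem_succ U (init ω) n x
      rw [e1]
      exact (ih x).union (Finset.measurableSet_biUnion _ fun X _ =>
        Finset.measurableSet_biInter _ fun y _ => ih (x + y))
  intro x
  exact (h x).compl

theorem sub : S_SUB := by
  intro U hU X hX
  by_contra hne
  rw [Finset.not_nonempty_iff_eq_empty] at hne
  subst hne
  have h1 : ∀ A : Set Site, closure U A = univ := by
    intro A
    rw [eq_univ_iff_forall]
    intro x
    refine mem_iUnion.2 ⟨1, Or.inr ⟨∅, hX, fun y hy => absurd hy (Finset.notMem_empty y)⟩⟩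
  have h2 : {θ : ℝ | Stable U θ} = ∅ := by
    ext θ
    simp only [mem_ofPred_eq, mem_empty_iff_false, iff_false]
    intro h
    unfold Stable at h
    rw [h1] at h
    have h3 : (0 : Site) ∈ halfPlane θ := by rw [← h]; trivial
    have h4 : ((0 : Site).1 : ℝ) * Real.cos θ + ((0 : Site).2 : ℝ) * Real.sin θ < 0 := h3
    simp at h4
  have h5 := hU 0
  rw [h2] at h5
  simp at h5

/-- the shifted configuration -/
def Fs (x : Site) (ω : Site → Bool) : Site → Bool := fun z => ω (z + x)

lemma inf_shift (U : Finset (Finset Site)) (x : Site) (ω : Site → Bool) (n : ℕ) :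
    ∀ z : Site, z + x ∈ infected U (init ω) n ↔ z ∈ infected U (init (Fs x ω)) n := by
  induction n with
  | zero =>
    intro z
    exact Iff.rfl
  | succ n ih =>
    intro z
    rw [mem_succ, mem_succ, ih z]
    have h1 : ∀ y : Site, z + x + y = z + y + x := fun y => by abel
    simp only [h1, ih]

lemma Fs_mp (x : Site) (p : unitInterval) : MeasurePreserving (Fs x) (Perc p) (Perc p) := by
  refine ⟨?_, ?_⟩
  · exact measurable_pi_lambda _ fun z => measurable_pi_apply (z + x)
  · have h := Measure.infinitePi_map_piCongrLeft (ι := Site) (X := fun _ => Bool)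
      (μ := fun _ => bern p) (Equiv.addRight (-x))
    have e1 : (MeasurableEquiv.piCongrLeft (fun _ : Site => Bool) (Equiv.addRight (-x))
        : (Site → Bool) → (Site → Bool)) = Fs x := by
      funext ω z
      have h2 := MeasurableEquiv.piCongrLeft_apply_apply (Equiv.addRight (-x))
        (β := fun _ : Site => Bool) ω (z + x)
      have h3 : (Equiv.addRight (-x)) (z + x) = z := by simp
      rw [h3] at h2
      exact h2
    rw [e1] at h
    exact h

theorem shift : S_SHIFT := by
  intro U p n x
  have h1 : late U n x = Fs x ⁻¹' (late U n 0) := by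
    ext ω
    have h2 := inf_shift U x ω n 0
    rw [zero_add] at h2
    exact not_congr h2
  rw [h1]
  exact (Fs_mp x p).measure_preimage (meas U n 0).nullMeasurableSet

end Pool.Agent.W346.UB
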