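import Pool.Agent.W829.UB.Defs

/-!
UB-ZON: finite stable healthy sets.
-/

set_option autoImplicit false

open MeasureTheory Set

namespace Pool.Agent.W346.UB

open Pool.Agent.W829.UB

/-- lattice points of a zonotope -/
def PN (V : Finset Site) (N : ℕ) : Set Site :=
  {x | ∃ c : Site → ℝ, (∀ v, |c v| ≤ N) ∧ ∑ v ∈ V, c v * (v.1 : ℝ) = x.1 ∧
    ∑ v ∈ V, c v * (v.2 : ℝ) = x.2}

lemma PN_finite (V : Finset Site) (N : ℕ) : (PN V N).Finite := by
  set B : ℤ := N * ∑ v ∈ V, (|v.1| + |v.2|) with hB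
  refine (Set.finite_Icc ((-B, -B) : ℤ × ℤ) (B, B)).subset ?_
  rintro x ⟨c, hc, h1, h2⟩
  have hb1 : |(x.1 : ℝ)| ≤ B := by
    rw [← h1]
    calc |∑ v ∈ V, c v * (v.1 : ℝ)| ≤ ∑ v ∈ V, |c v * (v.1 : ℝ)| := Finset.abs_sum_le_sum_abs _ _
      _ ≤ ∑ v ∈ V, (N : ℝ) * (|(v.1 : ℝ)| + |(v.2 : ℝ)|) := by
        refine Finset.sum_le_sum fun v _ => ?_
        rw [abs_mul]
        have := hc v
        nlinarith [abs_nonneg (v.1 : ℝ), abs_nonneg (v.2 : ℝ), abs_nonneg (c v)]
      _ = B := by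
        rw [hB]
        push_cast
        rw [Finset.mul_sum]
  have hb2 : |(x.2 : ℝ)| ≤ B := by
    rw [← h2]
    calc |∑ v ∈ V, c v * (v.2 : ℝ)| ≤ ∑ v ∈ V, |c v * (v.2 : ℝ)| := Finset.abs_sum_le_sum_abs _ _
      _ ≤ ∑ v ∈ V, (N : ℝ) * (|(v.1 : ℝ)| + |(v.2 : ℝ)|) := by
        refine Finset.sum_le_sum fun v _ => ?_
        rw [abs_mul]
        have := hc v
        nlinarith [abs_nonneg (v.1 : ℝ), abs_nonneg (v.2 : ℝ), abs_nonneg (c v)]
      _ = B := by
        rw [hB]
        push_cast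
        rw [Finset.mul_sum]
  have hi1 : |x.1| ≤ B := by exact_mod_cast hb1
  have hi2 : |x.2| ≤ B := by exact_mod_cast hb2
  rw [abs_le] at hi1 hi2
  exact ⟨⟨hi1.1, hi2.1⟩, ⟨hi1.2, hi2.2⟩⟩

/-- one step up -/
lemma PN_up {V : Finset Site} {N : ℕ} {x y : Site} (hy : y ∈ V) (c : Site → ℝ)
    (hc : ∀ v, |c v| ≤ N) (h1 : ∑ v ∈ V, c v * (v.1 : ℝ) = x.1)
    (h2 : ∑ v ∈ V, c v * (v.2 : ℝ) = x.2) (hcy : c y ≤ N - 1) : x + y ∈ PN V N := by
  classical
  have key : ∀ g : Site → ℝ, ∑ v ∈ V, Function.update c y (c y + 1) v * g v =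
      ∑ v ∈ V, c v * g v + g y := by
    intro g
    rw [← Finset.add_sum_erase V _ hy, ← Finset.add_sum_erase V (fun v => c v * g v) hy,
      Function.update_self]
    have : ∑ v ∈ V.erase y, Function.update c y (c y + 1) v * g v =
        ∑ v ∈ V.erase y, c v * g v := by
      refine Finset.sum_congr rfl fun v hv => ?_
      rw [Function.update_of_ne (Finset.ne_of_mem_erase hv)]
    rw [this]
    ring
  refine ⟨Function.update c y (c y + 1), fun v => ?_, ?_, ?_⟩
  · by_cases h : v = y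
    · subst h
      rw [Function.update_self, abs_le]
      have := abs_le.1 (hc v)
      constructor <;> linarith [this.1, this.2]
    · rw [Function.update_of_ne h]
      exact hc v
  · rw [key fun v => (v.1 : ℝ), h1]
    simp only [Prod.fst_add]
    push_cast
    ring
  · rw [key fun v => (v.2 : ℝ), h2]
    simp only [Prod.snd_add]
    push_cast
    ring

lemma claim {V X : Finset Site} (hXV : X ⊆ V) (h0 : (0 : ℝ × ℝ) ∈ convexHull ℝ (real X)) :
    ∃ N0 : ℕ, ∀ N : ℕ, N0 ≤ N → ∀ x ∈ PN V N, ∃ y ∈ X, x + y ∈ PN V N := by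
  classical
  -- weights
  set f : Site → ℝ × ℝ := fun y => ((y.1 : ℝ), (y.2 : ℝ)) with hf
  have hinj : Function.Injective f := by
    intro a b h
    have h1 : (a.1 : ℝ) = b.1 := congrArg Prod.fst h
    have h2 : (a.2 : ℝ) = b.2 := congrArg Prod.snd h
    exact Prod.ext (by exact_mod_cast h1) (by exact_mod_cast h2)
  have hreal : real X = ((X.image f : Finset (ℝ × ℝ)) : Set (ℝ × ℝ)) := by
    rw [Finset.coe_image]
    rfl
  rw [hreal, Finset.mem_convexHull'] at h0
  obtain ⟨w, hw0, hw1, hw2⟩ := h0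
  rw [Finset.sum_image fun a _ b _ h => hinj h] at hw1 hw2
  have hwn : ∀ y ∈ X, 0 ≤ w (f y) := fun y hy => hw0 _ (Finset.mem_image_of_mem f hy)
  have hwf : ∑ y ∈ X, w (f y) * (y.1 : ℝ) = 0 := by
    have := congrArg Prod.fst hw2
    rw [Prod.fst_sum] at this
    simpa [hf] using this
  have hws : ∑ y ∈ X, w (f y) * (y.2 : ℝ) = 0 := by
    have := congrArg Prod.snd hw2
    rw [Prod.snd_sum] at this
    simpa [hf] using this
  obtain ⟨y0, hy0, hwy⟩ : ∃ y0 ∈ X, 0 < w (f y0) := by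
    by_contra hcon
    push Not at hcon
    have := Finset.sum_nonpos hcon
    rw [hw1] at this
    linarith
  set s : ℝ := 1 / w (f y0) with hs
  have hs0 : 0 < s := by positivity
  obtain ⟨N0, hN0⟩ := exists_nat_ge (1 + s)
  refine ⟨N0, fun N hN x hx => ?_⟩
  have hNr : 1 + s ≤ (N : ℝ) := hN0.trans (by exact_mod_cast hN)
  obtain ⟨c, hc, h1, h2⟩ := hx
  by_cases hA : ∃ y ∈ X, c y ≤ N - 1
  · obtain ⟨y, hy, hcy⟩ := hA
    exact ⟨y, hy, PN_up (hXV hy) c hc h1 h2 hcy⟩
  · push Not at hA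
    have hw1' : ∀ y ∈ X, w (f y) ≤ 1 := by
      intro y hy
      rw [← hw1]
      exact Finset.single_le_sum (f := fun y => w (f y)) hwn hy
    have key : ∀ g : Site → ℝ, ∑ y ∈ X, w (f y) * g y = 0 →
        ∑ v ∈ V, (c v - if v ∈ X then s * w (f v) else 0) * g v = ∑ v ∈ V, c v * g v := by
      intro g hg
      have e1 : ∀ v ∈ V, (c v - if v ∈ X then s * w (f v) else 0) * g v =
          c v * g v - if v ∈ X then s * (w (f v) * g v) else 0 := by
        intro v _
        split_ifs <;> ring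
      rw [Finset.sum_congr rfl e1, Finset.sum_sub_distrib, ← Finset.sum_filter,
        Finset.filter_mem_eq_inter, Finset.inter_eq_right.2 hXV, ← Finset.mul_sum, hg, mul_zero,
        sub_zero]
    refine ⟨y0, hy0, PN_up (hXV hy0) (fun v => c v - if v ∈ X then s * w (f v) else 0) ?_ ?_ ?_ ?_⟩
    · intro v
      by_cases hv : v ∈ X
      · rw [if_pos hv, abs_le]
        have b1 := abs_le.1 (hc v)
        have b2 := hA v hv
        have b3 := hw1' v hv
        have b4 := hwn v hv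
        constructor
        · nlinarith
        · nlinarith [b1.2, mul_nonneg hs0.le b4]
      · rw [if_neg hv, sub_zero]
        exact hc v
    · rw [key _ hwf, h1]
    · rw [key _ hws, h2]
    · show c y0 - (if y0 ∈ X then s * w (f y0) else 0) ≤ N - 1
      rw [if_pos hy0]
      have b1 := (abs_le.1 (hc y0)).2
      have b2 : s * w (f y0) = 1 := by rw [hs]; field_simp
      linarith

theorem zon : S_ZON := by
  classical
  intro U _ hU
  set V : Finset Site := U.biUnion id with hV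
  have hXV : ∀ X ∈ U, X ⊆ V := fun X hX => Finset.subset_biUnion_of_mem id hX
  choose! g hg using fun X (hX : X ∈ U) => claim (hXV X hX) (hU X hX)
  set N : ℕ := U.sup g with hN
  have hstep : ∀ X ∈ U, ∀ x ∈ PN V N, ∃ y ∈ X, x + y ∈ PN V N := fun X hX =>
    hg X hX N (Finset.le_sup hX)
  refine ⟨(PN_finite V N).toFinset, ?_, fun A hA n => ?_⟩
  · rw [Set.Finite.mem_toFinset]
    exact ⟨fun _ => 0, fun v => by simp, by simp, by simp⟩
  · induction n with
    | zero => exact hA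
    | succ n ih =>
      intro x hx
      rintro (h | ⟨X, hX, h⟩)
      · exact ih x hx h
      · rw [Set.Finite.mem_toFinset] at hx
        obtain ⟨y, hy, hxy⟩ := hstep X hX x hx
        exact ih (x + y) ((PN_finite V N).mem_toFinset.2 hxy) (h y hy)

end Pool.Agent.W346.UB
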